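import Pool.Agent.H24.AB.ExFam

/-!
# Project FD, version 2, module Cubic: cubic places for `3 ∤ good`
-/

namespace H24AB

open Polynomial NumberField H9FC H9AB IsDedekindDomain H29AB

section

variable {F K : Type*} [Field F] [NumberField F] [Field K] [NumberField K] [Algebra F K]

omit [NumberField K] in
theorem cub_iff [NumberField K] {a b l : K} (hl : l ≠ 0) {a' b' : 𝓞 K} (ea : (a' : K) = l * a)
    (eb : (b' : K) = l * b) (v : HeightOneSpectrum (𝓞 K)) (ha : a' ∉ v.asIdeal) :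
    v.valuation K (a ^ 2 + a * b + b ^ 2) < v.valuation K (a ^ 2) ↔
      a' ^ 2 + a' * b' + b' ^ 2 ∈ v.asIdeal := by
  have h5 : v.valuation K ((a' : 𝓞 K) : K) = 1 := by
    refine le_antisymm (v.valuation_le_one a') ?_
    by_contra h6
    exact ha ((HeightOneSpectrum.valuation_lt_one_iff_mem (K := K) v a').mp (not_le.mp h6))
  have h6 : ((a' ^ 2 + a' * b' + b' ^ 2 : 𝓞 K) : K) = l ^ 2 * (a ^ 2 + a * b + b ^ 2) := by
    have h8 : ((a' ^ 2 + a' * b' + b' ^ 2 : 𝓞 K) : K)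
        = (a' : K) ^ 2 + (a' : K) * (b' : K) + (b' : K) ^ 2 := by
      push_cast
      ring
    rw [h8, ea, eb]
    ring
  have hvl : v.valuation K (l ^ 2) ≠ 0 := (v.valuation K).ne_zero_iff.2 (pow_ne_zero 2 hl)
  have h7 : v.valuation K (l ^ 2) * v.valuation K (a ^ 2) = 1 := by
    rw [← map_mul, ← mul_pow, ← ea, map_pow, h5, one_pow]
  have h9 : v.valuation K (((a' ^ 2 + a' * b' + b' ^ 2 : 𝓞 K)) : K) < 1 ↔
      a' ^ 2 + a' * b' + b' ^ 2 ∈ v.asIdeal :=
    HeightOneSpectrum.valuation_lt_one_iff_mem (K := K) v _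
  rw [← h9, h6, map_mul, ← h7]
  exact (mul_lt_mul_iff_right₀ (zero_lt_iff.2 hvl)).symm

/-- a finite field with a root of `X² - X + 1`, not of characteristic `3`, has `1` modulo `3` elements -/
theorem card_mod_three (k : Type*) [Field k] [Finite k] (h3 : (3 : k) ≠ 0) (t : k) (ht : t ^ 2 - t + 1 = 0) :
    Nat.card k % 3 = 1 := by
  classical
  have : Fintype k := Fintype.ofFinite k
  have ht0 : -t ≠ 0 := by
    intro h
    rw [neg_eq_zero] at h
    rw [h] at ht
    norm_num at ht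
  have hz3 : (-t) ^ 3 = 1 := by linear_combination (-t - 1) * ht
  have hz1 : -t ≠ 1 := by
    intro h
    apply h3
    have h4 : t = -1 := by linear_combination -h
    rw [h4] at ht
    linear_combination ht
  let x : kˣ := Units.mk0 (-t) ht0
  have hx : orderOf x = 3 := by
    have : Fact (Nat.Prime 3) := ⟨Nat.prime_three⟩
    refine orderOf_eq_prime ?_ ?_
    · apply Units.ext
      rw [Units.val_pow_eq_pow_val, Units.val_one]
      exact hz3
    · intro h
      exact hz1 (congrArg Units.val h)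
  have h5 : 3 ∣ Fintype.card kˣ := by
    rw [← hx]
    exact orderOf_dvd_card
  rw [Fintype.card_units] at h5
  have h6 : 0 < Fintype.card k := Fintype.card_pos
  rw [Nat.card_eq_fintype_card]
  omega

/-- a finite field with `1` modulo `3` elements has a root of `X² + X + 1` -/
theorem exists_omega (k : Type*) [Field k] [Finite k] (h : Nat.card k % 3 = 1) : ∃ z : k, z ^ 2 + z + 1 = 0 := by
  classical
  have : Fintype k := Fintype.ofFinite k
  have h3 : 3 ∣ Fintype.card kˣ := by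
    rw [Nat.card_eq_fintype_card] at h
    rw [Fintype.card_units]
    omega
  obtain ⟨x, hx⟩ := exists_prime_orderOf_dvd_card 3 h3
  refine ⟨(x : k), ?_⟩
  have hx1 : (x : k) ^ 3 = 1 := by
    have := pow_orderOf_eq_one x
    rw [hx] at this
    rw [← Units.val_pow_eq_pow_val, this, Units.val_one]
  have hx2 : (x : k) ≠ 1 := by
    intro h7
    have h8 : x = 1 := Units.ext h7
    rw [h8, orderOf_one] at hx
    omega
  have h9 : ((x : k) - 1) * ((x : k) ^ 2 + x + 1) = 0 := by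
    linear_combination hx1
  exact (mul_eq_zero.mp h9).resolve_left (sub_ne_zero.mpr hx2)

/-- **M4** -/
theorem sym_cubic {p : ℕ} [Fact p.Prime] (hS : SymF F K p) (hp : 2 * Module.finrank ℚ K + 3 ≤ p)
    (a b c : K) (ha : a ≠ 0) (hb : b ≠ 0) (hc : c ≠ 0) (h : a ^ p + b ^ p + c ^ p = 0)
    (u : HeightOneSpectrum (𝓞 F)) (hu : (p : 𝓞 F) ∈ u.asIdeal) (h3 : ¬ 3 ∣ good u a b c) :
    ∃ v : HeightOneSpectrum (𝓞 K), v.asIdeal.LiesOver u.asIdeal ∧ CubAt v a b c ∧
      (Nat.card (𝓞 F ⧸ u.asIdeal) % 3 = 2 → Even (v.asIdeal.inertiaDeg (𝓞 F))) ∧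
      (Nat.card (𝓞 F ⧸ u.asIdeal) % 3 = 1 → ∃ v' : HeightOneSpectrum (𝓞 K), v' ≠ v ∧
        v'.asIdeal.LiesOver u.asIdeal ∧ CubAt v' a b c) := by
  classical
  have hpp : p.Prime := Fact.out
  have hd : 0 < Module.finrank ℚ K := Module.finrank_pos
  have hp5 : 5 ≤ p := by omega
  obtain ⟨Ω, _, _, _⟩ : ∃ (Ω : Type) (_ : Field Ω) (_ : IsAlgClosed Ω), CharP Ω p :=
    ⟨AlgebraicClosure (ZMod p), inferInstance, inferInstance, inferInstance⟩
  obtain ⟨l, a', b', c', w, ψ, hl, ea, eb, ec, hF, hC, hw, hψ, hv, hplace, hcard⟩ := exists_fam Ω a b c ha hb hc h u hu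
  have hT := hS a' b' c' hF hC Ω w ψ hψ
  -- `3 ≠ 0` in fields of characteristic `p`
  have h3Ω : (3 : Ω) ≠ 0 := by
    intro h0
    have h1 : ((3 : ℕ) : Ω) = 0 := by exact_mod_cast h0
    rw [CharP.cast_eq_zero_iff Ω p] at h1
    have := Nat.le_of_dvd (by norm_num) h1
    omega
  have h3' : ¬ 3 ∣ Fintype.card {i // ψ i a' ≠ 0 ∧ ψ i b' ≠ 0 ∧ ψ i c' ≠ 0} := by
    rw [← Nat.card_eq_fintype_card, hcard]
    exact h3
  obtain ⟨⟨i, hi⟩, hTi⟩ := hT.exists_root h3'
  -- places of the good roots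
  have key : ∀ i, (ψ i a' ≠ 0 ∧ ψ i b' ≠ 0 ∧ ψ i c' ≠ 0) → (-(ψ i b') / ψ i a') ^ 2 - (-(ψ i b') / ψ i a') + 1 = 0 →
      ∃ v : HeightOneSpectrum (𝓞 K), v.asIdeal = RingHom.ker (ψ i) ∧ v.asIdeal.LiesOver u.asIdeal ∧ CubAt v a b c := by
    intro i hi ht
    obtain ⟨v, hv1, hv2⟩ := hplace i
    have hmem : a' ∉ v.asIdeal ∧ b' ∉ v.asIdeal ∧ c' ∉ v.asIdeal := by
      rw [hv1]
      simp only [RingHom.mem_ker]
      exact hi
    refine ⟨v, hv1, hv2, ((hv v hv2).1).2 hmem, ?_⟩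
    rw [cub_iff hl ea eb v hmem.1, hv1, RingHom.mem_ker]
    simp only [map_add, map_mul, map_pow]
    have hia := hi.1
    field_simp at ht
    linear_combination ht
  obtain ⟨v, hv1, hv2, hvc⟩ := key i hi hTi
  refine ⟨v, hv2, hvc, ?_, ?_⟩
  · -- even residue degree
    intro hq
    have hum : u.asIdeal.IsMaximal := u.isMaximal
    have hvm : v.asIdeal.IsMaximal := v.isMaximal
    let _ : Field (𝓞 K ⧸ v.asIdeal) := Ideal.Quotient.field _
    have hfin : Finite (𝓞 K ⧸ v.asIdeal) := Ideal.finiteQuotientOfFreeOfNeBot _ v.ne_bot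
    have ha0 : Ideal.Quotient.mk v.asIdeal a' ≠ 0 := by
      rw [Ne, Ideal.Quotient.eq_zero_iff_mem, hv1, RingHom.mem_ker]
      exact hi.1
    have h3k : (3 : 𝓞 K ⧸ v.asIdeal) ≠ 0 := by
      intro h0
      have h1 : Ideal.Quotient.mk v.asIdeal (3 : 𝓞 K) = 0 := by
        rw [map_ofNat]
        exact h0
      rw [Ideal.Quotient.eq_zero_iff_mem, hv1, RingHom.mem_ker, map_ofNat] at h1
      exact h3Ω h1
    have hroot : a' ^ 2 + a' * b' + b' ^ 2 ∈ v.asIdeal := by
      rw [← cub_iff hl ea eb v (by rw [hv1, RingHom.mem_ker]; exact hi.1)]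
      exact hvc.2
    have h4 := card_mod_three (𝓞 K ⧸ v.asIdeal) h3k
      (-(Ideal.Quotient.mk v.asIdeal b') / Ideal.Quotient.mk v.asIdeal a') (by
        rw [← Ideal.Quotient.eq_zero_iff_mem] at hroot
        simp only [map_add, map_mul, map_pow] at hroot
        field_simp
        linear_combination hroot)
    have h5 : Nat.card (𝓞 K ⧸ v.asIdeal) =
        Nat.card (𝓞 F ⧸ u.asIdeal) ^ v.asIdeal.inertiaDeg (𝓞 F) := by
      have h6 := Ideal.cardQuot_pow_inertiaDeg u.asIdeal v.asIdeal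
      rw [Submodule.cardQuot_apply, Submodule.cardQuot_apply] at h6
      exact h6.symm
    rw [h5] at h4
    by_contra hodd
    rw [Nat.not_even_iff_odd] at hodd
    obtain ⟨k, hk⟩ := hodd
    rw [hk, pow_succ, pow_mul, Nat.mul_mod, Nat.pow_mod, Nat.pow_mod (Nat.card (𝓞 F ⧸ u.asIdeal)) 2, hq] at h4
    norm_num at h4
  · -- the second place
    intro hq
    obtain ⟨σ, hσ⟩ := hT.sub
    obtain ⟨⟨j, hj⟩, hjσ⟩ : ∃ j : {i // ψ i a' ≠ 0 ∧ ψ i b' ≠ 0 ∧ ψ i c' ≠ 0}, j = σ ⟨i, hi⟩ := ⟨_, rfl⟩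
    have hsum : -(ψ j b') / ψ j a' + -(ψ i b') / ψ i a' = 1 := by
      have h4 := hσ ⟨i, hi⟩
      rw [← hjσ] at h4
      exact h4
    have hTj : (-(ψ j b') / ψ j a') ^ 2 - (-(ψ j b') / ψ j a') + 1 = 0 := by
      have h4 : -(ψ j b') / ψ j a' = 1 - -(ψ i b') / ψ i a' := eq_sub_of_add_eq hsum
      have h5 : (-(ψ i b') / ψ i a') ^ 2 - (-(ψ i b') / ψ i a') + 1 = 0 := hTi
      rw [h4]
      linear_combination h5
    obtain ⟨v', hv1', hv2', hvc'⟩ := key j hj hTj
    refine ⟨v', ?_, hv2', hvc'⟩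
    intro hvv
    have hker : RingHom.ker (ψ i) = RingHom.ker (ψ j) := by rw [← hv1, ← hv1', hvv]
    -- a cube root of unity in the residue field of `u`
    have hum : u.asIdeal.IsMaximal := u.isMaximal
    let _ : Field (𝓞 F ⧸ u.asIdeal) := Ideal.Quotient.field _
    have hfin : Finite (𝓞 F ⧸ u.asIdeal) := Ideal.finiteQuotientOfFreeOfNeBot _ u.ne_bot
    obtain ⟨z0, hz0⟩ := exists_omega (𝓞 F ⧸ u.asIdeal) hq
    obtain ⟨z, rfl⟩ := Ideal.Quotient.mk_surjective z0
    have hz : w z ^ 2 + w z + 1 = 0 := by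
      have h4 : z ^ 2 + z + 1 ∈ RingHom.ker w := by
        rw [hw, ← Ideal.Quotient.eq_zero_iff_mem, map_add, map_add, map_pow, map_one]
        exact hz0
      rw [RingHom.mem_ker, map_add, map_add, map_pow, map_one] at h4
      exact h4
    have hroots : (-(ψ i b') / ψ i a' - w (-z)) * (-(ψ i b') / ψ i a' - w (1 + z)) = 0 := by
      have h5 : (-(ψ i b') / ψ i a') ^ 2 - (-(ψ i b') / ψ i a') + 1 = 0 := hTi
      rw [map_neg, map_add, map_one]
      linear_combination h5 - hz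
    obtain ⟨g, hg⟩ : ∃ g : 𝓞 F, -(ψ i b') / ψ i a' = w g := by
      rcases mul_eq_zero.1 hroots with h6 | h6
      · exact ⟨_, sub_eq_zero.1 h6⟩
      · exact ⟨_, sub_eq_zero.1 h6⟩
    have hval : ∀ m, ψ m (algebraMap (𝓞 F) (𝓞 K) g) = w g := by
      intro m
      rw [← hψ.1 m]
      rfl
    have h7 : b' + algebraMap (𝓞 F) (𝓞 K) g * a' ∈ RingHom.ker (ψ i) := by
      rw [RingHom.mem_ker, map_add, map_mul, hval, ← hg]
      have hia := hi.1
      field_simp
      ring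
    rw [hker, RingHom.mem_ker, map_add, map_mul, hval] at h7
    have h8 : -(ψ j b') / ψ j a' = w g := by
      rw [div_eq_iff hj.1]
      linear_combination -h7
    have h5 : (-(ψ i b') / ψ i a') ^ 2 - (-(ψ i b') / ψ i a') + 1 = 0 := hTi
    rw [hg, h8] at hsum
    rw [hg] at h5
    apply h3Ω
    linear_combination 4 * h5 - (2 * w g - 1) * hsum

end

end H24AB
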