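import Pool.Agent.H24.AB.RelDeg
import Pool.Agent.H29.AB.Iface
import Pool.Agent.H3.AB.Scale

/-!
# Project FD, version 2, module ExFam: the family attached to a solution and a place of `F`
-/

namespace H24AB

open Polynomial NumberField H9FC H9AB IsDedekindDomain H29AB

section

variable {F K : Type*} [Field F] [NumberField F] [Field K] [NumberField K] [Algebra F K]

/-- M2': the number of the good indices, and the integral solution attached to `a, b, c` -/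
theorem exists_fam {p : ℕ} [Fact p.Prime] (Ω : Type) [Field Ω] [IsAlgClosed Ω] [CharP Ω p] (a b c : K) (ha : a ≠ 0)
    (hb : b ≠ 0) (hc : c ≠ 0) (h : a ^ p + b ^ p + c ^ p = 0) (u : HeightOneSpectrum (𝓞 F))
    (hu : (p : 𝓞 F) ∈ u.asIdeal) :
    ∃ (l : K) (a' b' c' : 𝓞 K) (w : 𝓞 F →+* Ω) (ψ : Fin (Module.finrank F K) → (𝓞 K →+* Ω)),
      l ≠ 0 ∧ (a' : K) = l * a ∧ (b' : K) = l * b ∧ (c' : K) = l * c ∧ FSol K p a' b' c' ∧
      CopAt K p a' b' c' ∧ RingHom.ker w = u.asIdeal ∧ IsRelFam w ψ ∧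
      (∀ v : HeightOneSpectrum (𝓞 K), v.asIdeal.LiesOver u.asIdeal →
        (EqAt v a b c ↔ a' ∉ v.asIdeal ∧ b' ∉ v.asIdeal ∧ c' ∉ v.asIdeal) ∧
        Nat.card {i // RingHom.ker (ψ i) = v.asIdeal} =
          v.asIdeal.ramificationIdx (𝓞 F) * v.asIdeal.inertiaDeg (𝓞 F)) ∧
      (∀ i, ∃ v : HeightOneSpectrum (𝓞 K), v.asIdeal = RingHom.ker (ψ i) ∧
        v.asIdeal.LiesOver u.asIdeal) ∧
      Nat.card {i // ψ i a' ≠ 0 ∧ ψ i b' ≠ 0 ∧ ψ i c' ≠ 0} = good u a b c := by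
  classical
  have hpp : p.Prime := Fact.out
  obtain ⟨l, a', b', c', hl, ea, eb, ec, hF, hC, hgood⟩ := H3AB.scale_mixed ha hb hc h
  obtain ⟨w, hw⟩ := H3AB.exists_hom_ker p Ω u.asIdeal u.isPrime hu
  obtain ⟨ψ, h1, h2⟩ := exists_relFam F K Ω w
  have hpv : ∀ v : HeightOneSpectrum (𝓞 K), v.asIdeal.LiesOver u.asIdeal → (p : 𝓞 K) ∈ v.asIdeal := by
    intro v hv
    have h3 : (p : 𝓞 F) ∈ v.asIdeal.under (𝓞 F) := by
      rw [← hv.over]
      exact hu
    rw [Ideal.under_def, Ideal.mem_comap, map_natCast] at h3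
    exact h3
  have hcard : ∀ v : HeightOneSpectrum (𝓞 K), v.asIdeal.LiesOver u.asIdeal →
      Nat.card {i // RingHom.ker (ψ i) = v.asIdeal} =
        v.asIdeal.ramificationIdx (𝓞 F) * v.asIdeal.inertiaDeg (𝓞 F) := by
    intro v hv
    refine card_ker p w ψ h1 h2 v.asIdeal v.isPrime ?_
    rw [hw]
    exact hv.over.symm
  have hplace : ∀ i, ∃ v : HeightOneSpectrum (𝓞 K), v.asIdeal = RingHom.ker (ψ i) ∧
      v.asIdeal.LiesOver u.asIdeal := by
    intro i
    have h4 : (RingHom.ker (ψ i)).comap (algebraMap (𝓞 F) (𝓞 K)) = u.asIdeal := by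
      rw [← hw, ← h1 i]
      rfl
    have hne : RingHom.ker (ψ i) ≠ ⊥ := by
      intro h5
      have h6 := p_mem_ker (p := p) (ψ i)
      rw [h5, Ideal.mem_bot, Nat.cast_eq_zero] at h6
      exact hpp.ne_zero h6
    exact ⟨⟨RingHom.ker (ψ i), RingHom.ker_isPrime (ψ i), hne⟩, rfl, ⟨h4.symm⟩⟩
  refine ⟨l, a', b', c', w, ψ, hl, ea, eb, ec, hF, hC, hw, ⟨h1, h2⟩, fun v hv => ⟨hgood v (hpv v hv), hcard v hv⟩,
    hplace, ?_⟩
  -- the count
  choose V hV1 hV2 using hplace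
  have hfin : {v : HeightOneSpectrum (𝓞 K) | v.asIdeal.LiesOver u.asIdeal ∧ EqAt v a b c}.Finite := by
    have h3 : ({v : HeightOneSpectrum (𝓞 K) | v.asIdeal.LiesOver u.asIdeal}).Finite := by
      have h4 : (Ideal.primesOver (u.asIdeal) (𝓞 K)).Finite := by
        have : u.asIdeal.IsMaximal := u.isMaximal
        exact Set.toFinite _
      refine Set.Finite.of_finite_image (f := fun v : HeightOneSpectrum (𝓞 K) => v.asIdeal) (h4.subset ?_)
        fun v _ v' _ h => HeightOneSpectrum.ext h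
      rintro _ ⟨v, hv, rfl⟩
      exact ⟨v.isPrime, hv⟩
    exact h3.subset fun v hv => hv.1
  unfold good
  rw [finsum_mem_eq_finite_toFinset_sum _ hfin]
  have h5 : ∀ v ∈ hfin.toFinset, v.asIdeal.ramificationIdx (𝓞 F) * v.asIdeal.inertiaDeg (𝓞 F) =
      (Finset.univ.filter fun i => V i = v).card := by
    intro v hv
    rw [Set.Finite.mem_toFinset] at hv
    rw [← hcard v hv.1, Nat.card_eq_fintype_card, Fintype.card_subtype]
    congr 1
    ext i
    rw [Finset.mem_filter, Finset.mem_filter]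
    refine and_congr_right fun _ => ⟨fun h => HeightOneSpectrum.ext ((hV1 i).trans h), fun h => ?_⟩
    rw [← hV1 i, h]
  rw [Finset.sum_congr rfl h5]
  have h6 : ∀ i, (ψ i a' ≠ 0 ∧ ψ i b' ≠ 0 ∧ ψ i c' ≠ 0) ↔ V i ∈ hfin.toFinset := by
    intro i
    rw [Set.Finite.mem_toFinset]
    have h7 := hgood (V i) (hpv (V i) (hV2 i))
    rw [hV1 i] at h7
    simp only [RingHom.mem_ker] at h7
    exact ⟨fun h8 => ⟨hV2 i, h7.2 h8⟩, fun h8 => h7.1 h8.2⟩
  rw [Nat.card_eq_fintype_card, Fintype.card_subtype]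
  have h7 : (Finset.univ.filter fun i => ψ i a' ≠ 0 ∧ ψ i b' ≠ 0 ∧ ψ i c' ≠ 0) =
      Finset.univ.filter fun i => V i ∈ hfin.toFinset := by
    ext i
    rw [Finset.mem_filter, Finset.mem_filter, h6 i]
  rw [h7, Finset.card_eq_sum_card_fiberwise (f := V) (t := hfin.toFinset) (fun i hi => by
    rw [Finset.mem_coe, Finset.mem_filter] at hi
    exact hi.2)]
  refine Finset.sum_congr rfl fun v hv => ?_
  congr 1
  ext i
  rw [Finset.mem_filter, Finset.mem_filter, Finset.mem_filter]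
  exact ⟨fun h8 => ⟨h8.1.1, h8.2⟩, fun h8 => ⟨⟨h8.1, by rw [h8.2]; exact hv⟩, h8.2⟩⟩

end

end H24AB
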