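import Pool.Agent.H72.AB.Desc
import Pool.Agent.H9.FC.LocDeg

/-!
# Project FD, version 2, module RelDeg: relative local degrees

Let `F ⊆ K` be number fields, `w : 𝓞 F → Ω` a homomorphism to an algebraically closed field of characteristic
`p` and `ψ_i : 𝓞 K → Ω` (`i < [K:F]`) a family over `w` which factors the reductions of the relative norm forms.
* `card_ker`: for a prime `P` of `K` above `ker w` the number of the `i` with `ker ψ_i = P` is
  `e(P|ker w) f(P|ker w)`.

PROOF. Let `x` be in `P` and in no other prime above `p`, so that the number is the multiplicity of the zero `0` of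
`w(N_{K/F}(x + X))`, and depends on `ker w` only. Now `N_{K/ℚ}(x + X) = ∏ σ(N_{K/F}(x + X))`
over the embeddings `σ` of `F`; in the reduction the factors with `ker = P ∩ F` contribute this multiplicity and the
others nothing. The number of the former is `e f` of `P ∩ F` over `ℚ` by the absolute case (module
`LocDeg`).
-/

namespace H24AB

open Polynomial NumberField H9FC H9AB H72AB

section prodform

variable (F K : Type*) [Field F] [NumberField F] [Field K] [NumberField K] [Algebra F K]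

/-- the product formula for the norm -/
theorem norm_prod (N : Type*) [Field N] [NumberField N] (hF : Fintype.card (F →ₐ[ℚ] N) = Module.finrank ℚ F)
    (u : F) : algebraMap ℚ N (Algebra.norm ℚ u) = ∏ σ : F →ₐ[ℚ] N, σ u := by
  have h1 := congrArg (fun q : Polynomial N => q.eval 0) (nfL_map_prod ℚ F N hF u 0)
  simp only [eval_prod, eval_add, eval_mul, eval_C, eval_X, map_zero, zero_mul, add_zero] at h1
  rw [← h1]
  have h2 : (0 : N) = algebraMap ℚ N 0 := (map_zero _).symm
  rw [h2, eval_map_apply, nfL_eval, smul_zero, add_zero]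

/-- `N_{K/ℚ}(x + yX) = ∏_σ σ(N_{K/F}(x + yX))` -/
theorem nf_prod (N : Type*) [Field N] [NumberField N] (hF : Fintype.card (F →ₐ[ℚ] N) = Module.finrank ℚ F)
    (hK : Fintype.card (K →ₐ[ℚ] N) = Module.finrank ℚ K) (x y : 𝓞 K) :
    (nf K x y).map (Int.castRingHom (𝓞 N)) =
      ∏ σ : F →ₐ[ℚ] N, (nfR F K x y).map (RingOfIntegers.mapRingHom (σ : F →+* N)) := by
  apply map_injective (algebraMap (𝓞 N) N) RingOfIntegers.coe_injective
  rw [map_map, Polynomial.map_prod]
  have h2 : (algebraMap (𝓞 N) N).comp (Int.castRingHom (𝓞 N)) = Int.castRingHom N := RingHom.ext_int _ _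
  rw [h2, nf_map_prod K N hK, ← nfL_map_prod ℚ K N hK]
  have h3 : ∀ σ : F →ₐ[ℚ] N, ((nfR F K x y).map (RingOfIntegers.mapRingHom (σ : F →+* N))).map
      (algebraMap (𝓞 N) N) = (nfL F K (x : K) (y : K)).map (σ : F →+* N) := by
    intro σ
    rw [← nfR_map, map_map, map_map]
    rfl
  simp only [h3]
  have : IsScalarTower ℚ F K := IsScalarTower.of_algebraMap_eq' (Subsingleton.elim _ _)
  apply eq_of_infinite_eval_eq
  refine Set.Infinite.mono ?_ (Set.infinite_range_of_injective ((algebraMap ℚ N).injective))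
  rintro _ ⟨t, rfl⟩
  show eval (algebraMap ℚ N t) _ = eval (algebraMap ℚ N t) _
  rw [eval_map_apply, nfL_eval, eval_prod, ← Algebra.norm_norm (R := ℚ) (S := F), norm_prod F N hF]
  refine Finset.prod_congr rfl fun σ _ => ?_
  have h4 : algebraMap ℚ N t = (σ : F →+* N) (algebraMap ℚ F t) := (σ.commutes t).symm
  rw [h4, eval_map_apply, nfL_eval]
  have h5 : t • (y : K) = (algebraMap ℚ F t) • (y : K) := by
    rw [algebraMap_smul]
  rw [h5]
  rfl

end prodform

/-- the multiplicity of the zero `0` depends on the kernel only -/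
theorem mult_zero_eq {R Ω : Type*} [CommRing R] [Field Ω] (Q : R[X]) (w w' : R →+* Ω)
    (h : RingHom.ker w = RingHom.ker w') :
    rootMultiplicity 0 (Q.map w) = rootMultiplicity 0 (Q.map w') := by
  have hc : ∀ n, (Q.map w).coeff n = 0 ↔ (Q.map w').coeff n = 0 := by
    intro n
    rw [coeff_map, coeff_map, ← RingHom.mem_ker, ← RingHom.mem_ker, h]
  have hs : (Q.map w).support = (Q.map w').support := by
    ext n
    rw [mem_support_iff, mem_support_iff, not_iff_not]
    exact hc n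
  rw [rootMultiplicity_eq_natTrailingDegree', rootMultiplicity_eq_natTrailingDegree', natTrailingDegree,
    natTrailingDegree, trailingDegree, trailingDegree, hs]

/-- the number of zeros in a family is a multiplicity -/
theorem card_zero_mult {A Ω ι : Type*} [CommRing A] [Field Ω] [Fintype ι] (ψ : ι → (A →+* Ω)) (x : A) :
    rootMultiplicity 0 (∏ i, (C (ψ i x) + X * C (ψ i 1))) = Nat.card {i // ψ i x = 0} := by
  classical
  rw [mult_prod Finset.univ (fun i => ψ i x) (fun i => ψ i 1) (fun i _ => Or.inr (by rw [map_one]; exact one_ne_zero)) 0,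
    Nat.card_eq_fintype_card, Fintype.card_subtype]
  congr 1
  ext i
  rw [Finset.mem_filter, Finset.mem_filter, zero_mul, add_zero]

section

variable {K : Type*} [Field K] [NumberField K] {p : ℕ} [Fact p.Prime]

omit [NumberField K] [Fact p.Prime] in
theorem p_mem_ker {Ω : Type*} [Field Ω] [CharP Ω p] (φ : 𝓞 K →+* Ω) : (p : 𝓞 K) ∈ RingHom.ker φ := by
  rw [RingHom.mem_ker, map_natCast, CharP.cast_eq_zero]

theorem max_of_p {P : Ideal (𝓞 K)} (hP : P.IsPrime) (hp : (p : 𝓞 K) ∈ P) : P.IsMaximal := by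
  refine hP.isMaximal fun h => ?_
  rw [h, Ideal.mem_bot] at hp
  exact (Fact.out : p.Prime).ne_zero (by exact_mod_cast hp)

omit [NumberField K] in
theorem over_iff (P : Ideal (𝓞 K)) (hP : P.IsPrime) :
    P.LiesOver (Ideal.span {(p : ℤ)}) ↔ (p : 𝓞 K) ∈ P := by
  have hq : p.Prime := Fact.out
  constructor
  · intro h
    have h1 : (p : ℤ) ∈ P.under ℤ := by
      rw [← h.over]
      exact Ideal.mem_span_singleton_self _
    rw [Ideal.under_def, Ideal.mem_comap] at h1
    rwa [map_natCast] at h1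
  · intro h
    constructor
    have h1 : (Ideal.span {(p : ℤ)}) ≤ P.under ℤ := by
      rw [Ideal.span_singleton_le_iff_mem, Ideal.under_def, Ideal.mem_comap, map_natCast]
      exact h
    exact (Int.ideal_span_isMaximal_of_prime p).eq_of_le (Ideal.IsPrime.under ℤ P).ne_top h1

/-- an element of `P` in no other prime above `p` -/
theorem exists_elt (P : Ideal (𝓞 K)) (hP : P.IsPrime) (hp : (p : 𝓞 K) ∈ P) :
    ∃ x : 𝓞 K, x ∈ P ∧ ∀ Q : Ideal (𝓞 K), Q.IsPrime → (p : 𝓞 K) ∈ Q → x ∈ Q → Q = P := by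
  classical
  have hqp : p.Prime := Fact.out
  have hspan : Ideal.span {(p : ℤ)} ≠ ⊥ := by
    rw [Ne, Ideal.span_singleton_eq_bot]
    exact_mod_cast hqp.ne_zero
  have : (Ideal.span {(p : ℤ)}).IsMaximal := Int.ideal_span_isMaximal_of_prime p
  have hfin : (Ideal.primesOver (Ideal.span {(p : ℤ)}) (𝓞 K)).Finite := Set.toFinite _
  set T : Finset (Ideal (𝓞 K)) := hfin.toFinset.erase P with hT
  have hTmem : ∀ Q ∈ T, Q ≠ P ∧ Q.IsPrime ∧ (p : 𝓞 K) ∈ Q := by
    intro Q hQ
    rw [hT, Finset.mem_erase, Set.Finite.mem_toFinset] at hQ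
    exact ⟨hQ.1, hQ.2.1, (over_iff Q hQ.2.1).1 hQ.2.2⟩
  have hne : ¬ ∃ Q ∈ T, P ≤ Q := by
    rintro ⟨Q, hQ, hle⟩
    obtain ⟨h1, h2, h3⟩ := hTmem Q hQ
    exact h1 ((max_of_p hP hp).eq_of_le h2.ne_top hle).symm
  have h4 : ¬ ((P : Set (𝓞 K)) ⊆ ⋃ Q ∈ (T : Set (Ideal (𝓞 K))), (Q : Set (𝓞 K))) := by
    rw [Ideal.subset_union_prime P P (fun Q hQ _ _ => (hTmem Q hQ).2.1)]
    exact hne
  rw [Set.not_subset] at h4
  obtain ⟨x, hxP, hx⟩ := h4
  refine ⟨x, hxP, fun Q hQ hpQ hxQ => ?_⟩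
  by_contra hcon
  apply hx
  rw [Set.mem_iUnion₂]
  refine ⟨Q, ?_, hxQ⟩
  rw [Finset.mem_coe, hT, Finset.mem_erase, Set.Finite.mem_toFinset]
  exact ⟨hcon, hQ, (over_iff Q hQ).2 hpQ⟩

/-- `mm` at such an element -/
theorem mm_elt (P : Ideal (𝓞 K)) (hP : P.IsPrime) (hp : (p : 𝓞 K) ∈ P) (x : 𝓞 K) (hx : x ∈ P)
    (hx' : ∀ Q : Ideal (𝓞 K), Q.IsPrime → (p : 𝓞 K) ∈ Q → x ∈ Q → Q = P) :
    mm K p x = P.ramificationIdx ℤ * P.inertiaDeg ℤ := by
  unfold mm
  have h1 : {Q : Ideal (𝓞 K) | Q ∈ Ideal.primesOver (Ideal.span {(p : ℤ)}) (𝓞 K) ∧ x ∈ Q} = {P} := by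
    ext Q
    constructor
    · rintro ⟨⟨h1, h2⟩, h3⟩
      exact hx' Q h1 ((over_iff Q h1).1 h2) h3
    · rintro rfl
      exact ⟨⟨hP, (over_iff _ hP).2 hp⟩, hx⟩
  rw [h1, finsum_mem_singleton]

end

section main

variable {F K : Type*} [Field F] [NumberField F] [Field K] [NumberField K] [Algebra F K] (p : ℕ) [Fact p.Prime]
  {Ω : Type*} [Field Ω] [IsAlgClosed Ω] [CharP Ω p]

include p

/-- **the number of the members of the family with kernel `P` is the relative local degree** -/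
theorem card_ker (w : 𝓞 F →+* Ω) (ψ : Fin (Module.finrank F K) → (𝓞 K →+* Ω))
    (_h1 : ∀ i, (ψ i).comp (algebraMap (𝓞 F) (𝓞 K)) = w)
    (h2 : ∀ x y : 𝓞 K, (nfR F K x y).map w = ∏ i, (C (ψ i x) + X * C (ψ i y)))
    (P : Ideal (𝓞 K)) (hP : P.IsPrime) (hPw : P.comap (algebraMap (𝓞 F) (𝓞 K)) = RingHom.ker w) :
    Nat.card {i // RingHom.ker (ψ i) = P} = P.ramificationIdx (𝓞 F) * P.inertiaDeg (𝓞 F) := by
  classical
  set 𝔭 := RingHom.ker w with h𝔭
  have h𝔭P : 𝔭.IsPrime := RingHom.ker_isPrime w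
  have hpw : (p : 𝓞 F) ∈ 𝔭 := p_mem_ker w
  have hpP : (p : 𝓞 K) ∈ P := by
    have h3 : (p : 𝓞 F) ∈ P.comap (algebraMap (𝓞 F) (𝓞 K)) := by rw [hPw]; exact hpw
    rw [Ideal.mem_comap, map_natCast] at h3
    exact h3
  obtain ⟨x, hxP, hx⟩ := exists_elt P hP hpP
  -- the count is a multiplicity
  have hker : ∀ φ : 𝓞 K →+* Ω, RingHom.ker φ = P ↔ φ x = 0 := by
    intro φ
    constructor
    · intro h
      rw [← RingHom.mem_ker, h]
      exact hxP
    · intro h
      exact hx _ (RingHom.ker_isPrime φ) (p_mem_ker φ) h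
  have hm : Nat.card {i // RingHom.ker (ψ i) = P} = rootMultiplicity 0 ((nfR F K x 1).map w) := by
    rw [h2, card_zero_mult]
    simp only [hker]
  -- the closure
  let N := IntermediateField.normalClosure ℚ K (AlgebraicClosure K)
  have hNf : NumberField N := { to_charZero := inferInstance, to_finiteDimensional := inferInstance }
  have hK : Fintype.card (K →ₐ[ℚ] N) = Module.finrank ℚ K :=
    (Fintype.card_congr (normalClosure.algHomEquiv ℚ K (AlgebraicClosure K))).trans
      (AlgHom.card ℚ K (AlgebraicClosure K))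
  have hst : IsScalarTower ℚ F K := IsScalarTower.of_algebraMap_eq' (Subsingleton.elim _ _)
  have hF : Fintype.card (F →ₐ[ℚ] N) = Module.finrank ℚ F := by
    refine AlgHom.card_of_splits ℚ F N fun z => ?_
    obtain ⟨τ⟩ : Nonempty (K →ₐ[ℚ] N) := by
      rw [← Fintype.card_pos_iff, hK]
      exact Module.finrank_pos
    let τF : F →ₐ[ℚ] N := τ.comp (IsScalarTower.toAlgHom ℚ F K)
    rw [← minpoly.algHom_eq τF τF.injective z]
    have ha : Algebra.IsAlgebraic ℚ (AlgebraicClosure K) := Algebra.IsAlgebraic.trans ℚ K (AlgebraicClosure K)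
    have hac : IsAlgClosure ℚ (AlgebraicClosure K) := ⟨inferInstance, inferInstance⟩
    have hnor : Normal ℚ (AlgebraicClosure K) := IsAlgClosure.normal ℚ (AlgebraicClosure K)
    have hnN : Normal ℚ N := normalClosure.normal ℚ K (AlgebraicClosure K)
    exact hnN.splits (τF z)
  obtain ⟨Ψ, hΨ⟩ := exists_redFam K p Ω
  obtain ⟨κ⟩ : Nonempty (𝓞 N →+* Ω) := by
    obtain ⟨Ψ', -⟩ := exists_redFam N p Ω
    exact ⟨Ψ' ⟨0, Module.finrank_pos⟩⟩
  -- the family of `F`
  let e : Fin (Module.finrank ℚ F) ≃ (F →ₐ[ℚ] N) := (Fintype.equivFinOfCardEq hF).symm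
  let u : Fin (Module.finrank ℚ F) → (𝓞 F →+* Ω) := fun i =>
    κ.comp (RingOfIntegers.mapRingHom (e i : F →+* N))
  have hu : IsRedFam u := by
    intro a b
    have h3 : (nf F a b).map (Int.castRingHom (𝓞 N)) = ∏ σ : F →ₐ[ℚ] N,
        (C (RingOfIntegers.mapRingHom (σ : F →+* N) a) + X * C (RingOfIntegers.mapRingHom (σ : F →+* N) b)) := by
      apply map_injective (algebraMap (𝓞 N) N) RingOfIntegers.coe_injective
      rw [map_map]
      have h4 : (algebraMap (𝓞 N) N).comp (Int.castRingHom (𝓞 N)) = Int.castRingHom N := RingHom.ext_int _ _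
      rw [h4, nf_map_prod F N hF, Polynomial.map_prod]
      refine Finset.prod_congr rfl fun σ _ => ?_
      rw [Polynomial.map_add, Polynomial.map_mul, map_C, map_C, map_X]
      rfl
    have h5 : (Int.castRingHom Ω) = κ.comp (Int.castRingHom (𝓞 N)) := (RingHom.ext_int _ _)
    rw [h5, ← map_map, h3, Polynomial.map_prod]
    rw [← Equiv.prod_comp e]
    refine Finset.prod_congr rfl fun i _ => ?_
    rw [Polynomial.map_add, Polynomial.map_mul, map_C, map_C, map_X]
    rfl
  -- the two products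
  have hprod : (nf K x 1).map (Int.castRingHom Ω) = ∏ j, (nfR F K x 1).map (u j) := by
    have h5 : (Int.castRingHom Ω) = κ.comp (Int.castRingHom (𝓞 N)) := (RingHom.ext_int _ _)
    rw [h5, ← map_map, nf_prod F K N hF hK, Polynomial.map_prod, ← Equiv.prod_comp e]
    refine Finset.prod_congr rfl fun i _ => ?_
    rw [map_map]
  -- multiplicities
  have hL : rootMultiplicity 0 ((nf K x 1).map (Int.castRingHom Ω)) = P.ramificationIdx ℤ * P.inertiaDeg ℤ := by
    rw [hΨ x 1, card_zero_mult, card_zero_eq_mm p hΨ, mm_elt P hP hpP x hxP hx]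
  have hθ : ∀ j, rootMultiplicity 0 ((nfR F K x 1).map (u j)) =
      if RingHom.ker (u j) = 𝔭 then Nat.card {i // RingHom.ker (ψ i) = P} else 0 := by
    intro j
    split_ifs with hj
    · rw [hm]
      exact mult_zero_eq _ _ _ hj
    · obtain ⟨θ, hθ1, hθ2⟩ := exists_relFam F K Ω (u j)
      rw [hθ2, card_zero_mult]
      rw [Nat.card_eq_zero]
      left
      constructor
      rintro ⟨i, hi⟩
      apply hj
      have h6 := (hker (θ i)).2 hi
      rw [← hPw, ← h6, ← hθ1 i]
      rfl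
  have hne : ∀ j, (nfR F K x 1).map (u j) ≠ 0 := by
    intro j
    obtain ⟨θ, hθ1, hθ2⟩ := exists_relFam F K Ω (u j)
    rw [hθ2]
    refine Finset.prod_ne_zero_iff.2 fun i _ h0 => ?_
    have h7 := congrArg (fun q : Polynomial Ω => q.coeff 1) h0
    simp at h7
  have hR : rootMultiplicity 0 (∏ j, (nfR F K x 1).map (u j)) =
      ∑ j, rootMultiplicity 0 ((nfR F K x 1).map (u j)) := by
    have hgen : ∀ s : Finset (Fin (Module.finrank ℚ F)), rootMultiplicity 0 (∏ j ∈ s, (nfR F K x 1).map (u j)) =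
        ∑ j ∈ s, rootMultiplicity 0 ((nfR F K x 1).map (u j)) := by
      intro s
      induction s using Finset.induction_on with
      | empty => simp
      | insert a s ha ih =>
        rw [Finset.prod_insert ha, Finset.sum_insert ha, rootMultiplicity_mul, ih]
        exact mul_ne_zero (hne a) (Finset.prod_ne_zero_iff.2 fun i _ => hne i)
    exact hgen Finset.univ
  rw [hprod, hR, Finset.sum_congr rfl fun j _ => hθ j, ← Finset.sum_filter, Finset.sum_const, smul_eq_mul] at hL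
  -- the number of the `u j` with kernel `𝔭`
  obtain ⟨y, hy𝔭, hy⟩ := exists_elt (K := F) 𝔭 h𝔭P hpw
  have hcard : (Finset.univ.filter fun j => RingHom.ker (u j) = 𝔭).card =
      𝔭.ramificationIdx ℤ * 𝔭.inertiaDeg ℤ := by
    rw [← mm_elt 𝔭 h𝔭P hpw y hy𝔭 hy, ← card_zero_eq_mm p hu, Nat.card_eq_fintype_card, Fintype.card_subtype]
    congr 1
    ext j
    rw [Finset.mem_filter, Finset.mem_filter]
    refine and_congr_right fun _ => ⟨fun h => ?_, fun h => ?_⟩
    · rw [← RingHom.mem_ker, h]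
      exact hy𝔭
    · exact hy _ (RingHom.ker_isPrime (u j)) (p_mem_ker (u j)) h
  rw [hcard] at hL
  -- towers
  have hover : P.LiesOver 𝔭 := ⟨hPw.symm⟩
  have h𝔭Z : 𝔭.LiesOver (Ideal.span {(p : ℤ)}) := (over_iff 𝔭 h𝔭P).2 hpw
  have he := Ideal.ramificationIdx_tower (R := ℤ) 𝔭 P
  have hf := Ideal.inertiaDeg_tower (R := ℤ) 𝔭 P
  have he0 : 0 < 𝔭.ramificationIdx ℤ := Ideal.ramificationIdx_pos 𝔭 ℤ
  have hf0 : 0 < 𝔭.inertiaDeg ℤ := Ideal.inertiaDeg_pos 𝔭 ℤ
  rw [he, hf] at hL
  have h8 : (𝔭.ramificationIdx ℤ * 𝔭.inertiaDeg ℤ) * Nat.card {i // RingHom.ker (ψ i) = P} =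
      (𝔭.ramificationIdx ℤ * 𝔭.inertiaDeg ℤ) * (P.ramificationIdx (𝓞 F) * P.inertiaDeg (𝓞 F)) := by
    rw [hL]
    ring
  exact Nat.eq_of_mul_eq_mul_left (Nat.mul_pos he0 hf0) h8

end main

end H24AB
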